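import Pool.Agent.Helper89.OC.St2

/-! # Project OC, module IB: the row bound -/

set_option autoImplicit false

namespace Pool.Agent.Helper55.OC

open Matrix ComplexConjugate Pool.Agent.Helper94.YF Pool.Agent.Helper94.YG Pool.Agent.Helper89.OS
  Pool.Agent.Helper89.OC

variable {I : Type} [Fintype I] [DecidableEq I] {p : ℕ}

theorem ib_s_o (X : PD I p 1) (k : I) : X.s X.o k = (X.y k : ℂ) := by
  rw [X.s_symm, X.s_o]

open Classical in
/-- (iii) of the proof. -/
theorem ib_iii (X : PD I p 1) (ζ : ℂ) (hζ : ζ ^ p = 1) (hζ1 : ζ ≠ 1) (k : I) (hk : X.t k = 1) :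
    (∑ j, if X.t j = ζ then (X.y j : ℂ) * X.s j k else 0) =
      (if k = X.o then (p : ℂ) else 0) - X.y k := by
  have hp : p.Prime := X.prime
  have : Fact (p ^ 1).Prime := ⟨by rw [pow_one]; exact hp⟩
  have : NeZero (p ^ 1) := ⟨(Fact.out : (p ^ 1).Prime).ne_zero⟩
  have hp0 : (p : ℂ) ≠ 0 := by exact_mod_cast hp.ne_zero
  have hz0 : ζ ≠ 0 := by
    rintro rfl
    rw [zero_pow hp.ne_zero] at hζ
    exact zero_ne_one hζ
  have hroot : ∀ j, ∑ w : ZMod (p ^ 1), (ζ⁻¹ * X.t j) ^ w.val =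
      if X.t j = ζ then (p : ℂ) else 0 := by
    intro j
    have e : (ζ⁻¹ * X.t j) ^ (p ^ 1) = 1 := by
      rw [mul_pow, X.t_pow, inv_pow, pow_one, hζ]
      simp
    rw [Helper8.OS.sum_root (p ^ 1) _ e, pow_one]
    have h : ζ⁻¹ * X.t j = 1 ↔ X.t j = ζ := by
      rw [inv_mul_eq_one₀ hz0]
      exact eq_comm
    simp only [h]
  have h1 : (p : ℂ) * (∑ j, if X.t j = ζ then (X.y j : ℂ) * X.s j k else 0) =
      ∑ w : ZMod (p ^ 1), (ζ⁻¹) ^ w.val * ∑ j, X.t j ^ w.val * (X.s X.o j * X.s j k) := by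
    have e : ∀ w : ZMod (p ^ 1), (ζ⁻¹) ^ w.val * ∑ j, X.t j ^ w.val * (X.s X.o j * X.s j k) =
        ∑ j, (ζ⁻¹ * X.t j) ^ w.val * ((X.y j : ℂ) * X.s j k) := by
      intro w
      rw [Finset.mul_sum]
      refine Finset.sum_congr rfl fun j _ => ?_
      rw [ib_s_o, mul_pow]
      ring
    rw [Finset.sum_congr rfl fun w _ => e w, Finset.sum_comm, Finset.mul_sum]
    refine Finset.sum_congr rfl fun j _ => ?_
    rw [← Finset.sum_mul, hroot j]
    split_ifs <;> ring
  have hpo : ∀ c i, X.pi c i = X.o ↔ i = X.o := by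
    intro c i
    constructor
    · intro h
      have := congrArg (X.pi c⁻¹) h
      rwa [← X.pi_mul, inv_mul_cancel, X.pi_one, X.pi_o] at this
    · rintro rfl
      exact X.pi_o c
  have h0 : ∑ j, X.t j ^ (0 : ZMod (p ^ 1)).val * (X.s X.o j * X.s j k) =
      if k = X.o then (p : ℂ) ^ 2 else 0 := by
    have e : ∀ j, X.t j ^ (0 : ZMod (p ^ 1)).val * (X.s X.o j * X.s j k) =
        X.s X.o j * X.s j k := by
      intro j
      rw [ZMod.val_zero, pow_zero, one_mul]
    rw [Finset.sum_congr rfl fun j _ => e j, X.weil0]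
    have h : (X.o = X.pi (-1) k) ↔ k = X.o := by
      rw [eq_comm, hpo]
    simp only [h]
  have hu : ∀ w : (ZMod (p ^ 1))ˣ,
      ∑ j, X.t j ^ (w : ZMod (p ^ 1)).val * (X.s X.o j * X.s j k) = (p : ℂ) * X.y k := by
    intro w
    rw [X.weil w X.o k, X.t_o, hk, one_pow, one_mul, mul_one, ib_s_o, X.pi_y]
  have hsum : ∑ w : (ZMod (p ^ 1))ˣ, (ζ⁻¹) ^ (w : ZMod (p ^ 1)).val = -1 := by
    have e : (ζ⁻¹ : ℂ) ^ (p ^ 1) = 1 := by
      rw [inv_pow, pow_one, hζ, inv_one]
    have h := Helper8.OS.sum_root (p ^ 1) _ e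
    have hz1 : (ζ⁻¹ : ℂ) ≠ 1 := by
      intro h
      exact hζ1 (inv_eq_one.1 h)
    rw [if_neg hz1, Helper8.OS.sum_split, ZMod.val_zero, pow_zero] at h
    linear_combination h
  rw [Helper8.OS.sum_split, h0, ZMod.val_zero, pow_zero, one_mul] at h1
  simp only [hu] at h1
  rw [← Finset.sum_mul, hsum] at h1
  apply mul_left_cancel₀ hp0
  rw [h1]
  split_ifs <;> ring

open Classical in
theorem ib_main (hE3 : StE3) (hE2 : StE2) (hE4 : StE4) (hORB : Helper89.OC.StORB) [NeZero p]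
    (X : PD I p 1) (b : I) (hb : X.t b ≠ 1) :
    (∑ k, if X.t k = 1 then ‖X.s b k‖ ^ 2 else 0) ≤
      2 * (p : ℝ) - ((p : ℝ) - 1) * (X.y b : ℝ) ^ 2 / (gX X : ℝ) := by
  obtain ⟨hM1, hM2, -, -, hM5, -, -⟩ := Helper39.OS.hMZZ I p X
  have hp : p.Prime := X.prime
  have hp0 : (0 : ℝ) < p := by exact_mod_cast hp.pos
  have hbo : b ≠ X.o := by
    rintro rfl
    exact hb X.t_o
  have hζ : X.t b ^ p = 1 := by
    have := X.t_pow b
    rwa [pow_one] at this
  set ζ : ℂ := X.t b with hζdef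
  have hgZ : (gX X : ℤ) = (p : ℤ) - X.y X.o := rfl
  set g : ℝ := (gX X : ℝ) with hg
  have hgx : g = (p : ℝ) - X.y X.o := by
    rw [hg, hgZ]
    push_cast
    ring
  have hg2 : (2 : ℝ) ≤ g := by
    rw [hgx]
    have : ((2 : ℤ) : ℝ) ≤ (((p : ℤ) - X.y X.o : ℤ) : ℝ) := by exact_mod_cast hM5
    push_cast at this
    exact this
  have hg0 : (0 : ℝ) < g := by linarith
  set yb : ℝ := (X.y b : ℝ) with hyb
  set al : ℝ := yb / g with hal
  set A : ℝ := ∑ k, if X.t k = 1 then ‖X.s b k‖ ^ 2 else 0 with hA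
  -- the vectors
  set u : I → ℂ := fun k => if X.t k = 1 then conj (X.s b k) else 0 with hu
  set w : I → ℝ := fun k => (if k = X.o then (p : ℝ) else 0) -
    (if X.t k = 1 then (X.y k : ℝ) else 0) with hw
  have hw0 : ∀ k, X.t k ≠ 1 → w k = 0 := by
    intro k hk
    have hko : k ≠ X.o := by
      rintro rfl
      exact hk X.t_o
    simp only [hw]
    rw [if_neg hk, if_neg hko, sub_zero]
  -- (i)
  have hsw : ∑ k, X.s b k * (w k : ℂ) = ((p : ℂ) + 1) * X.y b := by
    have hpo : ∀ c i, X.pi c i = X.o ↔ i = X.o := by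
      intro c i
      constructor
      · intro h
        have := congrArg (X.pi c⁻¹) h
        rwa [← X.pi_mul, inv_mul_cancel, X.pi_one, X.pi_o] at this
      · rintro rfl
        exact X.pi_o c
    have h := Helper8.OS.hHEC I p X (fun i => if i = X.o then 1 else 0)
      (by intro c i; simp only [hpo])
      (by
        intro i hi
        have : i = X.o := by
          by_contra h
          exact hi (if_neg h)
        rw [this, X.t_o]) b
    have e1 : ∀ k, ∑ i, X.s k i * (if i = X.o then (1 : ℂ) else 0) = X.y k := by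
      intro k
      simp [X.s_o]
    simp only [e1] at h
    rw [if_neg hbo, if_neg hb] at h
    have e2 : ∑ k, X.s b k * (w k : ℂ) = X.s b X.o * (p : ℂ) -
        ∑ k, (if X.t k = 1 then X.s b k * (X.y k : ℂ) else 0) := by
      have e3 : ∀ k, X.s b k * (w k : ℂ) = (if k = X.o then X.s b k * (p : ℂ) else 0) -
          (if X.t k = 1 then X.s b k * (X.y k : ℂ) else 0) := by
        intro k
        simp only [hw]
        split_ifs <;> push_cast <;> ring
      rw [Finset.sum_congr rfl fun k _ => e3 k, Finset.sum_sub_distrib]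
      congr 1
      simp
    rw [e2, h, X.s_o]
    ring
  -- (ii)
  have hww : ∑ k, w k ^ 2 = ((p : ℝ) + 1) * g := by
    have hM2' : (∑ k, if X.t k = 1 then (X.y k : ℝ) ^ 2 else 0) =
        (p : ℝ) + ((p : ℝ) - 1) * X.y X.o := by
      have := congrArg (fun z : ℤ => (z : ℝ)) hM2
      push_cast at this
      exact this
    have e3 : ∀ k, w k ^ 2 = (if k = X.o then (p : ℝ) ^ 2 - 2 * p * X.y k else 0) +
        (if X.t k = 1 then (X.y k : ℝ) ^ 2 else 0) := by
      intro k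
      simp only [hw]
      by_cases hk : k = X.o
      · rw [if_pos hk, if_pos hk, if_pos (by rw [hk, X.t_o]), if_pos (by rw [hk, X.t_o])]
        ring
      · rw [if_neg hk, if_neg hk]
        split_ifs <;> ring
    rw [Finset.sum_congr rfl fun k _ => e3 k, Finset.sum_add_distrib, hM2', hgx]
    simp
    ring
  -- the vector `u'`
  set u' : I → ℂ := fun k => u k - (al : ℂ) * (w k : ℂ) with hu'
  have hu0 : ∀ k, X.t k ≠ 1 → u' k = 0 := by
    intro k hk
    simp only [hu', hu]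
    rw [if_neg hk, hw0 k hk]
    simp
  -- `<w, u> = (p + 1) y b`
  have hwu : ∑ k, u k * (w k : ℂ) = ((p : ℂ) + 1) * X.y b := by
    have h := congrArg conj hsw
    rw [map_sum] at h
    have e : ∀ k, conj (X.s b k * (w k : ℂ)) = u k * (w k : ℂ) := by
      intro k
      rw [map_mul, Complex.conj_ofReal]
      simp only [hu]
      by_cases hk : X.t k = 1
      · rw [if_pos hk]
      · rw [if_neg hk, hw0 k hk]
        simp
    rw [Finset.sum_congr rfl fun k _ => e k] at h
    rw [h]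
    simp
  -- `(s u) b = A`
  have hsu : ∑ k, X.s b k * u k = (A : ℂ) := by
    rw [hA]
    push_cast
    refine Finset.sum_congr rfl fun k _ => ?_
    simp only [hu]
    split_ifs
    · rw [Complex.mul_conj, Complex.normSq_eq_norm_sq]
    · simp
  have hnu : ∑ k, ‖u k‖ ^ 2 = A := by
    rw [hA]
    refine Finset.sum_congr rfl fun k _ => ?_
    simp only [hu]
    split_ifs
    · rw [RCLike.norm_conj]
    · simp
  set R : ℝ := A - ((p : ℝ) + 1) * yb ^ 2 / g with hR
  have hybC : (X.y b : ℂ) = (yb : ℂ) := by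
    rw [hyb]
    push_cast
    rfl
  have hRu : ∑ k, ‖u' k‖ ^ 2 = R := by
    have e : ∀ k, ‖u' k‖ ^ 2 = ‖u k‖ ^ 2 - 2 * al * (u k * (w k : ℂ)).re + al ^ 2 * w k ^ 2 := by
      intro k
      simp only [hu']
      rw [← Complex.normSq_eq_norm_sq, ← Complex.normSq_eq_norm_sq, Complex.normSq_apply,
        Complex.normSq_apply]
      simp
      ring
    have hre : ∑ k, (u k * (w k : ℂ)).re = ((p : ℝ) + 1) * yb := by
      have h := congrArg Complex.re hwu
      rw [Complex.re_sum] at h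
      rw [h, hybC]
      simp
    rw [Finset.sum_congr rfl fun k _ => e k, Finset.sum_add_distrib, Finset.sum_sub_distrib,
      ← Finset.mul_sum, ← Finset.mul_sum, hnu, hre, hww, hR, hal]
    field_simp
    ring
  have hsub : ∑ k, X.s b k * u' k = (R : ℂ) := by
    have e : ∀ k, X.s b k * u' k = X.s b k * u k - (al : ℂ) * (X.s b k * (w k : ℂ)) := by
      intro k
      simp only [hu']
      ring
    rw [Finset.sum_congr rfl fun k _ => e k, Finset.sum_sub_distrib, ← Finset.mul_sum, hsu, hsw,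
      hybC, hR, hal]
    push_cast
    ring
  -- `∑ u' w = 0`
  have huw : ∑ k, u' k * (w k : ℂ) = 0 := by
    have e : ∀ k, u' k * (w k : ℂ) = u k * (w k : ℂ) - (al : ℂ) * ((w k ^ 2 : ℝ) : ℂ) := by
      intro k
      simp only [hu']
      push_cast
      ring
    rw [Finset.sum_congr rfl fun k _ => e k, Finset.sum_sub_distrib, ← Finset.mul_sum, hwu,
      ← Complex.ofReal_sum, hww, hybC, hal]
    have hgC : (g : ℂ) ≠ 0 := by exact_mod_cast hg0.ne'
    push_cast
    field_simp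
    ring
  -- E3
  have h3 := hE3 hE2 hE4 hORB I p X u' (by
    intro i hi
    by_contra h
    exact hi (hu0 i h)) ζ hζ hb
  rw [hRu] at h3
  set F : I → ℂ := fun j => ∑ k, X.s j k * u' k with hF
  set T : Finset I := Finset.univ.filter fun j => X.t j = ζ with hT
  have h3' : ∑ j ∈ T, ‖F j‖ ^ 2 ≤ 2 * (p : ℝ) * R := by
    rw [hT, Finset.sum_filter]
    exact h3
  have hbT : b ∈ T := by
    rw [hT, Finset.mem_filter]
    exact ⟨Finset.mem_univ _, rfl⟩
  have hyy : ∑ j ∈ T, (X.y j : ℝ) ^ 2 = g := by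
    have h := hM1 ζ hb hζ
    have := congrArg (fun z : ℤ => (z : ℝ)) h
    push_cast at this
    rw [hT, Finset.sum_filter, this, hgx]
  -- `∑_{T} y j F j = 0`
  have hyF : ∑ j ∈ T, (X.y j : ℂ) * F j = 0 := by
    have e : ∀ j, (X.y j : ℂ) * F j = ∑ k, u' k * ((X.y j : ℂ) * X.s j k) := by
      intro j
      simp only [hF]
      rw [Finset.mul_sum]
      refine Finset.sum_congr rfl fun k _ => ?_
      ring
    rw [Finset.sum_congr rfl fun j _ => e j, Finset.sum_comm, ← huw]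
    refine Finset.sum_congr rfl fun k _ => ?_
    by_cases hk : X.t k = 1
    · rw [← Finset.mul_sum, hT, Finset.sum_filter, ib_iii X ζ hζ hb k hk]
      congr 1
      simp only [hw]
      rw [if_pos hk]
      split_ifs <;> push_cast <;> rfl
    · rw [hu0 k hk]
      simp
  -- the vector `v'`
  set v : I → ℝ := fun j => (if j = b then 1 else 0) - al * X.y j with hv
  have hvv : ∑ j ∈ T, v j ^ 2 = 1 - yb ^ 2 / g := by
    have e : ∀ j, v j ^ 2 = (if j = b then 1 - 2 * al * X.y j else 0) +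
        al ^ 2 * (X.y j : ℝ) ^ 2 := by
      intro j
      simp only [hv]
      split_ifs <;> ring
    rw [Finset.sum_congr rfl fun j _ => e j, Finset.sum_add_distrib, ← Finset.mul_sum, hyy,
      Finset.sum_ite_eq' T b, if_pos hbT, hal, ← hyb]
    field_simp
    ring
  have hvF : ∑ j ∈ T, (v j : ℂ) * F j = (R : ℂ) := by
    have e : ∀ j, (v j : ℂ) * F j = (if j = b then F j else 0) - (al : ℂ) * ((X.y j : ℂ) * F j) := by
      intro j
      simp only [hv]
      split_ifs <;> push_cast <;> ring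
    rw [Finset.sum_congr rfl fun j _ => e j, Finset.sum_sub_distrib, ← Finset.mul_sum, hyF,
      mul_zero, sub_zero, Finset.sum_ite_eq' T b, if_pos hbT]
    exact hsub
  have hR0 : 0 ≤ R := by
    rw [← hRu]
    exact Finset.sum_nonneg fun k _ => sq_nonneg _
  have hV0 : 0 ≤ 1 - yb ^ 2 / g := by
    rw [← hvv]
    exact Finset.sum_nonneg fun k _ => sq_nonneg _
  have hCS : R ^ 2 ≤ (1 - yb ^ 2 / g) * (2 * (p : ℝ) * R) := by
    have h1 : R ≤ ∑ j ∈ T, |v j| * ‖F j‖ := by
      have h : ‖(R : ℂ)‖ ≤ ∑ j ∈ T, ‖(v j : ℂ) * F j‖ := by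
        rw [← hvF]
        exact norm_sum_le _ _
      rw [Complex.norm_real, Real.norm_of_nonneg hR0] at h
      refine h.trans (le_of_eq (Finset.sum_congr rfl fun j _ => ?_))
      rw [norm_mul, Complex.norm_real, Real.norm_eq_abs]
    have h2 : (∑ j ∈ T, |v j| * ‖F j‖) ^ 2 ≤ (∑ j ∈ T, |v j| ^ 2) * ∑ j ∈ T, ‖F j‖ ^ 2 :=
      Finset.sum_mul_sq_le_sq_mul_sq T _ _
    have h4 : ∑ j ∈ T, |v j| ^ 2 = 1 - yb ^ 2 / g := by
      rw [← hvv]
      exact Finset.sum_congr rfl fun j _ => sq_abs _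
    rw [h4] at h2
    calc R ^ 2 ≤ (∑ j ∈ T, |v j| * ‖F j‖) ^ 2 := pow_le_pow_left₀ hR0 h1 2
      _ ≤ (1 - yb ^ 2 / g) * ∑ j ∈ T, ‖F j‖ ^ 2 := h2
      _ ≤ (1 - yb ^ 2 / g) * (2 * (p : ℝ) * R) := mul_le_mul_of_nonneg_left h3' hV0
  have hfin : R ≤ 2 * (p : ℝ) * (1 - yb ^ 2 / g) := by
    rcases hR0.eq_or_lt with h | h
    · rw [← h]
      positivity
    · have : R * R ≤ (2 * (p : ℝ) * (1 - yb ^ 2 / g)) * R := by
        nlinarith [hCS]
      exact le_of_mul_le_mul_right this h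
  have hA' : A = R + ((p : ℝ) + 1) * yb ^ 2 / g := by
    rw [hR]
    ring
  rw [hA']
  have e : 2 * (p : ℝ) - ((p : ℝ) - 1) * yb ^ 2 / g =
      2 * (p : ℝ) * (1 - yb ^ 2 / g) + ((p : ℝ) + 1) * yb ^ 2 / g := by
    ring
  rw [e]
  linarith

theorem hIB : StIB := by
  intro hE3 hE2 hE4 hORB I _ _ p _ X b hb
  exact ib_main hE3 hE2 hE4 hORB X b hb

end Pool.Agent.Helper55.OC
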